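import Pool.Agent.Helper28.T3E.StF
import Pool.Agent.Helper29.T3.M_Lif3

/-!
# Project T3E, module LIFE: lifting symbols (the statement of LIF3 of project T3)
-/

set_option autoImplicit false

namespace Pool.Agent.Helper7.T3E

open Pool.Agent.Helper28.T3E

theorem hLIFE : StLIFE := by
  intro hRel hLifp hEx hUni
  exact Pool.Agent.Helper29.T3.hLif3 hRel hLifp hEx hUni

end Pool.Agent.Helper7.T3E
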